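import Mathlib

/-!
# MP_0b62d6_lc: the weak m-extension property implies weak m-distributivity

Let `A'` be a Boolean `m`-algebra with the weak `m`-extension property.  We show that `A'` is
weakly `m`-distributive, so Q1 has a negative answer for every infinite cardinal `m`.

Idea.  Let `c ≠ 0` be disjoint from all the elements `A_Φ`.  Let `X` be the Stone space of `A'`,
`[a]` the clopen set of `a ∈ A'`, and let `B = [c] ∩ ⋂ t, ⋃ s, [A t s]`.  By compactness no
nonempty clopen set is contained in `B`.  Hence, for the `m`-field of subsets of `X \ B` generated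
by the traces of the clopen sets, the map (trace of `[a]`) `↦ a` is well defined and satisfies
condition (a').  The same is true for `X` itself.  The two extensions given by the weak extension
property agree, which forces `c = 0`.
-/

open Set Cardinal

universe u

namespace Pool.Agent.Results.MP_0b62d6_lc.WeakExtDistrib

/-! ### The definitions of the problem -/

/-- `A` is a Boolean `m`-algebra: every family of at most `m` elements has a join and a meet. -/
def IsMAlgebra (m : Cardinal.{u}) (A : Type u) [BooleanAlgebra A] : Prop :=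
  ∀ S : Set A, #S ≤ m → (∃ a, IsLUB S a) ∧ (∃ a, IsGLB S a)

/-- `f` is an `m`-homomorphism: it preserves the joins and meets of all families of at most `m`
elements. -/
def IsMHom (m : Cardinal.{u}) {A B : Type u} [BooleanAlgebra A] [BooleanAlgebra B]
    (f : BoundedLatticeHom A B) : Prop :=
  ∀ S : Set A, #S ≤ m → (∀ a, IsLUB S a → IsLUB (f '' S) (f a)) ∧
    (∀ a, IsGLB S a → IsGLB (f '' S) (f a))

/-- `G` `m`-generates `A`: every subalgebra of `A` which contains `G` and is closed under joins and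
meets of families of at most `m` elements is `A` itself. -/
def MGenerates (m : Cardinal.{u}) {A : Type u} [BooleanAlgebra A] (G : Set A) : Prop :=
  ∀ C : BooleanSubalgebra A, G ⊆ C →
    (∀ S : Set A, S ⊆ C → #S ≤ m → ∀ a, IsLUB S a ∨ IsGLB S a → a ∈ C) → ∀ a, a ∈ C

/-- Condition (a') for `f : A₀ → A'`, where `A₀` is a subalgebra of `A`: if a family of at most
`m` elements of `A₀` has meet `0` in `A`, then the images have meet `0` in `A'`. -/
def CondA (m : Cardinal.{u}) {A A' : Type u} [BooleanAlgebra A] [BooleanAlgebra A']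
    (A₀ : BooleanSubalgebra A) (f : BoundedLatticeHom A₀ A') : Prop :=
  ∀ S : Set A₀, #S ≤ m → IsGLB ((fun x : A₀ => (x : A)) '' S) ⊥ → IsGLB (f '' S) ⊥

/-- The weak `m`-extension property. -/
def WeakExtension (m : Cardinal.{u}) (A' : Type u) [BooleanAlgebra A'] : Prop :=
  ∀ (A : Type u) [BooleanAlgebra A], IsMAlgebra m A →
    ∀ A₀ : BooleanSubalgebra A, MGenerates m (A₀ : Set A) →
      ∀ f : BoundedLatticeHom A₀ A', CondA m A₀ f →
        ∃ g : BoundedLatticeHom A A', IsMHom m g ∧ ∀ x : A₀, g x = f x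

/-- Weak `m`-distributivity. -/
def WeaklyDistributive (m : Cardinal.{u}) (A' : Type u) [BooleanAlgebra A'] : Prop :=
  ∀ (T S : Type u), #T ≤ m → #S ≤ m → ∀ a : T → S → A',
    (∀ t, IsLUB (range (a t)) ⊤) →
      IsLUB {x : A' | ∃ Φ : T → Finset S, (∀ t, (Φ t).Nonempty) ∧
        IsGLB (range fun t => (Φ t).sup (a t)) x} ⊤

/-! ### The Stone space -/

section Stone

variable {A : Type u} [BooleanAlgebra A]

/-- points of the Stone space: prime ideals -/
def Pt (A : Type u) [BooleanAlgebra A] : Type u := {J : Order.Ideal A // J.IsPrime}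

/-- the clopen set of `a` -/
def cyl (a : A) : Set (Pt A) := {J | a ∉ J.1}

lemma mem_cyl {a : A} {J : Pt A} : J ∈ cyl a ↔ a ∉ J.1 := Iff.rfl

lemma cyl_inf (a b : A) : cyl (a ⊓ b) = cyl a ∩ cyl b := by
  ext J
  simp only [mem_inter_iff, mem_cyl]
  constructor
  · intro h
    exact ⟨fun h1 => h (J.1.lower inf_le_left h1), fun h1 => h (J.1.lower inf_le_right h1)⟩
  · rintro ⟨h1, h2⟩ h3
    rcases J.2.mem_or_mem h3 with h | h
    · exact h1 h
    · exact h2 h

lemma cyl_compl (a : A) : cyl aᶜ = (cyl a)ᶜ := by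
  ext J
  simp only [mem_compl_iff, mem_cyl, not_not]
  constructor
  · intro h
    exact (J.2.mem_or_compl_mem (x := a)).resolve_right h
  · intro h h'
    have h1 : a ⊔ aᶜ ∈ J.1 := Order.Ideal.sup_mem h h'
    rw [sup_compl_eq_top] at h1
    exact J.2.toIsProper.top_notMem h1

lemma cyl_bot : cyl (⊥ : A) = ∅ := by
  ext J
  simp [mem_cyl]

lemma cyl_top : cyl (⊤ : A) = Set.univ := by
  rw [← compl_bot, cyl_compl, cyl_bot, compl_empty]

lemma cyl_sup (a b : A) : cyl (a ⊔ b) = cyl a ∪ cyl b := by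
  have h : a ⊔ b = (aᶜ ⊓ bᶜ)ᶜ := by simp
  rw [h, cyl_compl, cyl_inf, cyl_compl, cyl_compl, compl_inter, compl_compl, compl_compl]

lemma compact {S : Type u} (z : A) (a : S → A) (h : cyl z ⊆ ⋃ s, cyl (a s)) :
    ∃ Φ : Finset S, z ≤ Φ.sup a := by
  classical
  by_contra hcon
  push Not at hcon
  let I : Order.Ideal A :=
    { carrier := {x | ∃ Φ : Finset S, x ≤ Φ.sup a}
      lower' := by
        rintro x y hxy ⟨Φ, hΦ⟩
        exact ⟨Φ, hxy.trans hΦ⟩
      nonempty' := ⟨⊥, ∅, bot_le⟩
      directed' := by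
        rintro x ⟨Φ, hΦ⟩ y ⟨Ψ, hΨ⟩
        refine ⟨x ⊔ y, ⟨Φ ∪ Ψ, ?_⟩, le_sup_left, le_sup_right⟩
        rw [Finset.sup_union]
        exact sup_le_sup hΦ hΨ }
  have hdis : Disjoint ((Order.PFilter.principal z : Order.PFilter A) : Set A) (I : Set A) := by
    rw [Set.disjoint_left]
    rintro x hx ⟨Φ, hΦ⟩
    exact hcon Φ (le_trans hx hΦ)
  obtain ⟨J, hJ, hIJ, hdJ⟩ := DistribLattice.prime_ideal_of_disjoint_filter_ideal hdis
  have h1 : (⟨J, hJ⟩ : Pt A) ∈ cyl z := by
    intro hz
    exact Set.disjoint_left.1 hdJ (show z ∈ Order.PFilter.principal z from le_refl z) hz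
  obtain ⟨s, hs⟩ := mem_iUnion.1 (h h1)
  exact hs (hIJ ⟨{s}, by simp⟩)

lemma eq_bot_of_cyl {z : A} (h : cyl z = ∅) : z = ⊥ := by
  obtain ⟨Φ, hΦ⟩ := compact (S := PEmpty.{u+1}) z (fun s => s.elim) (by rw [h]; exact empty_subset _)
  have : Φ = ∅ := Finset.eq_empty_of_isEmpty Φ
  rw [this, Finset.sup_empty] at hΦ
  exact le_bot_iff.1 hΦ

end Stone

/-! ### Fields of sets -/

section Field

variable {Y : Type u}

/-- membership in the `m`-field of sets generated by `G` -/
inductive InField (m : Cardinal.{u}) (G : Set (Set Y)) : Set Y → Prop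
  | basic : ∀ s, s ∈ G → InField m G s
  | compl : ∀ s, InField m G s → InField m G sᶜ
  | union : ∀ S : Set (Set Y), #S ≤ m → (∀ s ∈ S, InField m G s) → InField m G (⋃₀ S)

variable {m : Cardinal.{u}} {G : Set (Set Y)}

lemma InField.empty : InField m G ∅ := by
  have := InField.union (m := m) (G := G) ∅ (by simp) (by simp)
  simpa using this

lemma InField.sup (hm : ℵ₀ ≤ m) {s t : Set Y} (hs : InField m G s) (ht : InField m G t) :
    InField m G (s ∪ t) := by
  have h := InField.union (m := m) (G := G) {s, t} ?_ ?_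
  · simpa using h
  · exact ((Set.toFinite _).lt_aleph0.le).trans hm
  · intro r hr
    rcases hr with rfl | rfl
    · exact hs
    · exact ht

lemma InField.inf (hm : ℵ₀ ≤ m) {s t : Set Y} (hs : InField m G s) (ht : InField m G t) :
    InField m G (s ∩ t) := by
  have := (InField.sup hm hs.compl ht.compl).compl
  rwa [compl_union, compl_compl, compl_compl] at this

/-- the `m`-field of sets generated by `G`, as a subalgebra of the power set -/
def fld (hm : ℵ₀ ≤ m) (G : Set (Set Y)) : BooleanSubalgebra (Set Y) where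
  carrier := {s | InField m G s}
  supClosed' := fun _ hs _ ht => InField.sup hm hs ht
  infClosed' := fun _ hs _ ht => InField.inf hm hs ht
  compl_mem' := fun hs => InField.compl _ hs
  bot_mem' := InField.empty

lemma mem_fld (hm : ℵ₀ ≤ m) {s : Set Y} : s ∈ fld hm G ↔ InField m G s := Iff.rfl

lemma fld_lub (hm : ℵ₀ ≤ m) (S : Set (fld hm G)) (hS : #S ≤ m) :
    ∃ h : InField m G (⋃₀ ((fun x : fld hm G => (x : Set Y)) '' S)),
      IsLUB S (⟨_, h⟩ : fld hm G) := by
  refine ⟨InField.union _ (mk_image_le.trans hS) ?_, ?_, ?_⟩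
  · rintro _ ⟨x, _, rfl⟩
    exact x.2
  · intro x hx
    exact subset_sUnion_of_mem (mem_image_of_mem _ hx)
  · intro y hy
    refine sUnion_subset ?_
    rintro _ ⟨x, hx, rfl⟩
    exact hy hx

lemma fld_lub_iff (hm : ℵ₀ ≤ m) (S : Set (fld hm G)) (hS : #S ≤ m) (y : fld hm G) :
    IsLUB S y ↔ (y : Set Y) = ⋃₀ ((fun x : fld hm G => (x : Set Y)) '' S) := by
  obtain ⟨h, hl⟩ := fld_lub hm S hS
  constructor
  · intro hy
    exact congrArg Subtype.val (hy.unique hl)
  · intro hy
    have : y = ⟨_, h⟩ := Subtype.ext hy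
    rw [this]
    exact hl

end Field

lemma isGLB_iff_compl {A : Type u} [BooleanAlgebra A] (S : Set A) (a : A) :
    IsGLB S a ↔ IsLUB (compl '' S) aᶜ := by
  constructor
  · rintro ⟨h1, h2⟩
    refine ⟨?_, ?_⟩
    · rintro _ ⟨x, hx, rfl⟩
      exact compl_le_compl (h1 hx)
    · intro y hy
      have : yᶜ ≤ a := h2 (fun x hx => by
        have := hy (mem_image_of_mem _ hx)
        exact compl_le_of_compl_le this)
      exact compl_le_of_compl_le this
  · rintro ⟨h1, h2⟩
    refine ⟨?_, ?_⟩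
    · intro x hx
      exact compl_le_compl_iff_le.1 (h1 (mem_image_of_mem _ hx))
    · intro y hy
      have : aᶜ ≤ yᶜ := h2 (by
        rintro _ ⟨x, hx, rfl⟩
        exact compl_le_compl (hy hx))
      exact compl_le_compl_iff_le.1 this

lemma fld_isMAlgebra {Y : Type u} {m : Cardinal.{u}} (hm : ℵ₀ ≤ m) (G : Set (Set Y)) :
    IsMAlgebra m (fld hm G) := by
  intro S hS
  refine ⟨?_, ?_⟩
  · obtain ⟨h, hl⟩ := fld_lub hm S hS
    exact ⟨_, hl⟩
  · obtain ⟨h, hl⟩ := fld_lub hm (compl '' S) (mk_image_le.trans hS)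
    refine ⟨(⟨_, h⟩ : fld hm G)ᶜ, ?_⟩
    rw [isGLB_iff_compl, compl_compl]
    exact hl

/-! ### The main construction -/

section Main

variable {A : Type u} [BooleanAlgebra A] {m : Cardinal.{u}}

/-- the trace of `C` on the complement of `B` -/
def tr (B C : Set (Pt A)) : Set {x : Pt A // x ∉ B} := {x | (x : Pt A) ∈ C}

/-- generators of the field of sets on the complement of `B` -/
def gens (B : Set (Pt A)) : Set (Set {x : Pt A // x ∉ B}) := range fun a : A => tr B (cyl a)

lemma tr_inField {B C : Set (Pt A)} (hC : InField m (range (cyl : A → Set (Pt A))) C) :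
    InField m (gens B) (tr B C) := by
  induction hC with
  | basic s hs =>
    obtain ⟨a, rfl⟩ := hs
    exact InField.basic _ ⟨a, rfl⟩
  | compl s _ ih => exact InField.compl _ ih
  | union S hS _ ih =>
    have h := InField.union (m := m) (G := gens B) (tr B '' S) (mk_image_le.trans hS) (by
      rintro _ ⟨s, hs, rfl⟩
      exact ih s hs)
    have h2 : tr B (⋃₀ S) = ⋃₀ (tr B '' S) := by
      ext x
      simp [tr]
    rw [h2]
    exact h

/-- the subalgebra of traces of clopen sets -/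
def sub0 (hm : ℵ₀ ≤ m) (B : Set (Pt A)) : BooleanSubalgebra (fld hm (gens B)) where
  carrier := {x | ∃ a : A, (x : Set {x : Pt A // x ∉ B}) = tr B (cyl a)}
  supClosed' := by
    rintro x ⟨a, ha⟩ y ⟨b, hb⟩
    refine ⟨a ⊔ b, ?_⟩
    rw [BooleanSubalgebra.val_sup, ha, hb, cyl_sup]
    rfl
  infClosed' := by
    rintro x ⟨a, ha⟩ y ⟨b, hb⟩
    refine ⟨a ⊓ b, ?_⟩
    rw [BooleanSubalgebra.val_inf, ha, hb, cyl_inf]
    rfl
  compl_mem' := by
    rintro x ⟨a, ha⟩
    refine ⟨aᶜ, ?_⟩
    rw [BooleanSubalgebra.val_compl, ha, cyl_compl]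
    rfl
  bot_mem' := ⟨⊥, by rw [cyl_bot]; rfl⟩

lemma sub0_generates (hm : ℵ₀ ≤ m) (B : Set (Pt A)) :
    MGenerates m ((sub0 hm B : BooleanSubalgebra (fld hm (gens B))) : Set (fld hm (gens B))) := by
  intro C hGC hC a
  obtain ⟨s, hs⟩ := a
  have key : ∀ s, InField m (gens B) s → ∃ h : s ∈ fld hm (gens B),
      (⟨s, h⟩ : fld hm (gens B)) ∈ C := by
    intro s hs
    induction hs with
    | basic s hs =>
      refine ⟨InField.basic _ hs, hGC ?_⟩
      obtain ⟨a, rfl⟩ := hs
      exact ⟨a, rfl⟩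
    | compl s _ ih =>
      obtain ⟨h, hC'⟩ := ih
      exact ⟨InField.compl _ h, C.compl_mem hC'⟩
    | union S hS _ ih =>
      let S' : Set (fld hm (gens B)) := {x | (x : Set {x : Pt A // x ∉ B}) ∈ S}
      have hS'm : #S' ≤ m := by
        refine le_trans (mk_le_of_injective (f := fun x : S' => (⟨x.1.1, x.2⟩ : S)) ?_) hS
        rintro ⟨⟨x, _⟩, _⟩ ⟨⟨y, _⟩, _⟩ h
        simpa using h
      have himg : (fun x : fld hm (gens B) => (x : Set {x : Pt A // x ∉ B})) '' S' = S := by
        ext s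
        constructor
        · rintro ⟨x, hx, rfl⟩
          exact hx
        · intro hs
          exact ⟨⟨s, (ih s hs).1⟩, hs, rfl⟩
      obtain ⟨h, hl⟩ := fld_lub hm S' hS'm
      have hmem := hC S' (by
        intro x hx
        obtain ⟨h1, h2⟩ := ih _ hx
        exact h2) hS'm _ (Or.inl hl)
      have h3 : ∀ r (hr : r = ⋃₀ S) (h : InField m (gens B) r),
          (⟨r, h⟩ : fld hm (gens B)) ∈ C → ∃ h : ⋃₀ S ∈ fld hm (gens B),
            (⟨⋃₀ S, h⟩ : fld hm (gens B)) ∈ C := by
        rintro r rfl h h'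
        exact ⟨h, h'⟩
      exact h3 _ (by rw [himg]) h hmem
  exact (key s hs).2

/-- The extension lemma: if no nonempty clopen set is contained in `B`, then the identity of `A`
extends to an `m`-homomorphism defined on the `m`-field of sets on the complement of `B`. -/
lemma exists_ext (hm : ℵ₀ ≤ m) (hA : WeakExtension m A) (B : Set (Pt A))
    (hB : ∀ z : A, cyl z ⊆ B → z = ⊥) :
    ∃ g : BoundedLatticeHom (fld hm (gens B)) A, IsMHom m g ∧
      ∀ (a : A) (x : fld hm (gens B)), (x : Set {x : Pt A // x ∉ B}) = tr B (cyl a) → g x = a := by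
  classical
  have hinj : ∀ a b : A, tr B (cyl a) ⊆ tr B (cyl b) → a ≤ b := by
    intro a b hab
    have h1 : cyl (a ⊓ bᶜ) ⊆ B := by
      intro J hJ
      by_contra hJB
      rw [cyl_inf, cyl_compl] at hJ
      exact hJ.2 (@hab ⟨J, hJB⟩ hJ.1)
    have h2 := hB _ h1
    rwa [← _root_.sdiff_eq, sdiff_eq_bot_iff] at h2
  have hinj' : ∀ a b : A, tr B (cyl a) = tr B (cyl b) → a = b := fun a b h =>
    le_antisymm (hinj a b h.subset) (hinj b a h.symm.subset)
  let v : sub0 hm B → A := fun x => Classical.choose x.2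
  have hv : ∀ x : sub0 hm B, ((x : fld hm (gens B)) : Set {x : Pt A // x ∉ B}) = tr B (cyl (v x)) :=
    fun x => Classical.choose_spec x.2
  have hv' : ∀ (x : sub0 hm B) (a : A),
      ((x : fld hm (gens B)) : Set {x : Pt A // x ∉ B}) = tr B (cyl a) → v x = a := by
    intro x a hx
    exact hinj' _ _ ((hv x).symm.trans hx)
  let f : BoundedLatticeHom (sub0 hm B) A :=
    { toFun := v
      map_sup' := by
        intro x y
        apply hv'
        rw [BooleanSubalgebra.val_sup, BooleanSubalgebra.val_sup, hv x, hv y, cyl_sup]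
        rfl
      map_inf' := by
        intro x y
        apply hv'
        rw [BooleanSubalgebra.val_inf, BooleanSubalgebra.val_inf, hv x, hv y, cyl_inf]
        rfl
      map_top' := by
        apply hv'
        rw [cyl_top]
        rfl
      map_bot' := by
        apply hv'
        rw [cyl_bot]
        rfl }
  have hf : ∀ x, f x = v x := fun _ => rfl
  have hcond : CondA m (sub0 hm B) f := by
    intro S hS hglb
    refine ⟨fun _ _ => bot_le, ?_⟩
    intro z hz
    rw [le_bot_iff]
    apply hB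
    intro J hJ
    by_contra hJB
    -- the trace of `[z]` is below all the traces, hence below the meet
    have h1 : (⟨tr B (cyl z), InField.basic _ ⟨z, rfl⟩⟩ : fld hm (gens B)) ∈
        lowerBounds ((fun x : sub0 hm B => (x : fld hm (gens B))) '' S) := by
      rintro _ ⟨x, hx, rfl⟩
      intro K hK
      have h2 : z ≤ v x := hz (mem_image_of_mem _ hx)
      have h3 : K ∈ tr B (cyl (v x)) := by
        intro h4
        exact hK (K.1.1.lower h2 h4)
      rw [← hv x] at h3
      exact h3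
    have h5 := hglb.2 h1
    exact @h5 ⟨J, hJB⟩ hJ
  obtain ⟨g, hg, hgf⟩ := hA (fld hm (gens B)) (fld_isMAlgebra hm _) (sub0 hm B)
    (sub0_generates hm B) f hcond
  refine ⟨g, hg, ?_⟩
  intro a x hx
  have h1 := hgf ⟨x, ⟨a, hx⟩⟩
  rw [hf] at h1
  have h2 := hv' ⟨x, ⟨a, hx⟩⟩ a hx
  rw [h2] at h1
  exact h1

/-- The two extensions agree. -/
lemma ext_agree (hm : ℵ₀ ≤ m) (B B' : Set (Pt A))
    (g : BoundedLatticeHom (fld hm (gens B)) A) (hg : IsMHom m g)
    (hga : ∀ (a : A) (x : fld hm (gens B)), (x : Set {x : Pt A // x ∉ B}) = tr B (cyl a) → g x = a)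
    (g' : BoundedLatticeHom (fld hm (gens B')) A) (hg' : IsMHom m g')
    (hga' : ∀ (a : A) (x : fld hm (gens B')), (x : Set {x : Pt A // x ∉ B'}) = tr B' (cyl a) →
      g' x = a) (C : Set (Pt A)) (hC : InField m (range (cyl : A → Set (Pt A))) C) :
    g ⟨tr B C, tr_inField hC⟩ = g' ⟨tr B' C, tr_inField hC⟩ := by
  induction hC with
  | basic s hs =>
    obtain ⟨a, rfl⟩ := hs
    rw [hga a _ rfl, hga' a _ rfl]
  | compl s hs ih =>
    have h1 : (⟨tr B sᶜ, tr_inField (hs.compl)⟩ : fld hm (gens B)) =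
      (⟨tr B s, tr_inField hs⟩ : fld hm (gens B))ᶜ := rfl
    have h2 : (⟨tr B' sᶜ, tr_inField (hs.compl)⟩ : fld hm (gens B')) =
      (⟨tr B' s, tr_inField hs⟩ : fld hm (gens B'))ᶜ := rfl
    rw [h1, h2, map_compl', map_compl', ih]
  | union S hS hSi ih =>
    have key : ∀ (D : Set (Pt A)) (k : BoundedLatticeHom (fld hm (gens D)) A), IsMHom m k →
        IsLUB (range fun s : S => k ⟨tr D s.1, tr_inField (hSi s.1 s.2)⟩)
          (k ⟨tr D (⋃₀ S), tr_inField (InField.union S hS hSi)⟩) := by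
      intro D k hk
      let F : S → fld hm (gens D) := fun s => ⟨tr D s.1, tr_inField (hSi s.1 s.2)⟩
      have h1 : #(range F) ≤ m := (mk_range_le).trans hS
      have h2 : IsLUB (range F)
          (⟨tr D (⋃₀ S), tr_inField (InField.union S hS hSi)⟩ : fld hm (gens D)) := by
        rw [fld_lub_iff hm _ h1]
        ext x
        constructor
        · rintro ⟨s, hs, hx⟩
          exact ⟨_, ⟨F ⟨s, hs⟩, ⟨⟨s, hs⟩, rfl⟩, rfl⟩, hx⟩
        · rintro ⟨_, ⟨_, ⟨s, rfl⟩, rfl⟩, hx⟩
          exact ⟨s.1, s.2, hx⟩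
      have h3 := (hk (range F) h1).1 _ h2
      rw [← range_comp] at h3
      exact h3
    have e1 := key B g hg
    have e2 := key B' g' hg'
    have e3 : (fun s : S => g ⟨tr B s.1, tr_inField (hSi s.1 s.2)⟩) =
        fun s : S => g' ⟨tr B' s.1, tr_inField (hSi s.1 s.2)⟩ := by
      funext s
      exact ih s.1 s.2
    rw [e3] at e1
    exact e1.unique e2

end Main

/-- **Main theorem.**  For every infinite cardinal `m`, every Boolean `m`-algebra with the weak
`m`-extension property is weakly `m`-distributive. -/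
theorem result (m : Cardinal.{u}) (hm : ℵ₀ ≤ m) (A' : Type u) [BooleanAlgebra A']
    (hA' : IsMAlgebra m A') (hext : WeakExtension m A') : WeaklyDistributive m A' := by
  classical
  intro T S hT hS a ha
  refine ⟨fun _ _ => le_top, ?_⟩
  intro b hb
  set c : A' := bᶜ with hc
  suffices hcb : c = ⊥ by
    rw [hc, compl_eq_bot] at hcb
    exact hcb.symm.le
  -- the set `B`
  let E : T → Set (Pt A') := fun t => ⋃ s, cyl (a t s)
  let B : Set (Pt A') := cyl c ∩ ⋂ t, E t
  -- `S` is nonempty as soon as `T` is nonempty and `A'` is nontrivial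
  have hB : ∀ z : A', cyl z ⊆ B → z = ⊥ := by
    intro z hz
    have h1 : ∀ t, ∃ Φ : Finset S, z ≤ Φ.sup (a t) := by
      intro t
      apply compact
      exact hz.trans (inter_subset_right.trans (iInter_subset _ t))
    choose Φ hΦ using h1
    have hzc : z ≤ c := by
      have h2 : cyl z ⊆ ⋃ _ : PUnit.{u+1}, cyl c := by
        intro J hJ
        exact mem_iUnion.2 ⟨PUnit.unit, (hz hJ).1⟩
      obtain ⟨Ψ, hΨ⟩ := compact z _ h2
      exact hΨ.trans (Finset.sup_le fun _ _ => le_rfl)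
    by_contra hz0
    have hne : ∀ t, (Φ t).Nonempty := by
      intro t
      rw [Finset.nonempty_iff_ne_empty]
      intro h3
      have := hΦ t
      rw [h3, Finset.sup_empty, le_bot_iff] at this
      exact hz0 this
    have hcard : #(range fun t => (Φ t).sup (a t)) ≤ m := mk_range_le.trans hT
    obtain ⟨x, hx⟩ := (hA' _ hcard).2
    have hzx : z ≤ x := hx.2 (by
      rintro _ ⟨t, rfl⟩
      exact hΦ t)
    have hxb : x ≤ b := hb ⟨Φ, hne, hx⟩
    have : z ≤ b ⊓ bᶜ := le_inf (hzx.trans hxb) hzc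
    rw [inf_compl_eq_bot, le_bot_iff] at this
    exact hz0 this
  have hB0 : ∀ z : A', cyl z ⊆ (∅ : Set (Pt A')) → z = ⊥ := fun z hz =>
    eq_bot_of_cyl (subset_empty_iff.1 hz)
  obtain ⟨g, hg, hga⟩ := exists_ext hm hext B hB
  obtain ⟨g', hg', hga'⟩ := exists_ext hm hext ∅ hB0
  -- `E t` and `B` lie in the field
  have hE : ∀ t, InField m (range (cyl : A' → Set (Pt A'))) (E t) := by
    intro t
    have h := InField.union (m := m) (G := range (cyl : A' → Set (Pt A')))
      (range fun s => cyl (a t s)) (mk_range_le.trans hS) (by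
        rintro _ ⟨s, rfl⟩
        exact InField.basic _ ⟨_, rfl⟩)
    rw [sUnion_range] at h
    exact h
  have hD : InField m (range (cyl : A' → Set (Pt A'))) (⋃ t, (E t)ᶜ) := by
    have h := InField.union (m := m) (G := range (cyl : A' → Set (Pt A')))
      (range fun t => (E t)ᶜ) (mk_range_le.trans hT) (by
        rintro _ ⟨t, rfl⟩
        exact (hE t).compl)
    rw [sUnion_range] at h
    exact h
  -- the value at `E t` is `⊤`
  have hEt : ∀ t, g' ⟨tr ∅ (E t), tr_inField (hE t)⟩ = ⊤ := by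
    intro t
    let F : S → fld hm (gens (∅ : Set (Pt A'))) := fun s => ⟨tr ∅ (cyl (a t s)),
      InField.basic _ ⟨_, rfl⟩⟩
    have h1 : #(range F) ≤ m := mk_range_le.trans hS
    have h2 : IsLUB (range F)
        (⟨tr ∅ (E t), tr_inField (hE t)⟩ : fld hm (gens (∅ : Set (Pt A')))) := by
      rw [fld_lub_iff hm _ h1]
      ext x
      simp [tr, F, E]
    have h3 := (hg' (range F) h1).1 _ h2
    rw [← range_comp] at h3
    have h4 : (g' ∘ F) = a t := by
      funext s
      exact hga' _ _ rfl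
    rw [h4] at h3
    exact h3.unique (ha t)
  -- the value at `⋃ t, (E t)ᶜ` is `⊥`
  have hDv : g' ⟨tr ∅ (⋃ t, (E t)ᶜ), tr_inField hD⟩ = ⊥ := by
    let F : T → fld hm (gens (∅ : Set (Pt A'))) := fun t => ⟨tr ∅ (E t)ᶜ,
      tr_inField (hE t).compl⟩
    have h1 : #(range F) ≤ m := mk_range_le.trans hT
    have h2 : IsLUB (range F)
        (⟨tr ∅ (⋃ t, (E t)ᶜ), tr_inField hD⟩ : fld hm (gens (∅ : Set (Pt A')))) := by
      rw [fld_lub_iff hm _ h1]
      ext x
      simp [tr, F]
    have h3 := (hg' (range F) h1).1 _ h2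
    have h4 : g' ⟨tr ∅ (⋃ t, (E t)ᶜ), tr_inField hD⟩ ≤ ⊥ := by
      apply h3.2
      rintro _ ⟨_, ⟨t, rfl⟩, rfl⟩
      have h5 : F t = (⟨tr ∅ (E t), tr_inField (hE t)⟩ : fld hm (gens (∅ : Set (Pt A'))))ᶜ := rfl
      rw [h5, map_compl', hEt t, compl_top]
    exact le_bot_iff.1 h4
  -- comparison
  have hcE : InField m (range (cyl : A' → Set (Pt A'))) (cyl c ∩ (⋃ t, (E t)ᶜ)ᶜ) :=
    InField.inf hm (InField.basic _ ⟨_, rfl⟩) hD.compl
  have hagree := ext_agree hm B ∅ g hg hga g' hg' hga' _ hcE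
  have hl : (⟨tr B (cyl c ∩ (⋃ t, (E t)ᶜ)ᶜ), tr_inField hcE⟩ : fld hm (gens B)) = ⊥ := by
    apply Subtype.ext
    ext x
    obtain ⟨J, hJ⟩ := x
    constructor
    · intro hx
      exfalso
      apply hJ
      refine ⟨hx.1, ?_⟩
      have h6 : J ∈ (⋃ t, (E t)ᶜ)ᶜ := hx.2
      rw [compl_iUnion] at h6
      simpa using h6
    · intro hx
      exact absurd hx (notMem_empty _)
  have hr : (⟨tr ∅ (cyl c ∩ (⋃ t, (E t)ᶜ)ᶜ), tr_inField hcE⟩ : fld hm (gens (∅ : Set (Pt A')))) =
      (⟨tr ∅ (cyl c), tr_inField (InField.basic _ ⟨_, rfl⟩)⟩ : fld hm (gens (∅ : Set (Pt A')))) ⊓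
      (⟨tr ∅ (⋃ t, (E t)ᶜ), tr_inField hD⟩ : fld hm (gens (∅ : Set (Pt A'))))ᶜ := rfl
  rw [hl, map_bot, hr, map_inf, map_compl', hDv, compl_bot, inf_top_eq, hga' c _ rfl] at hagree
  exact hagree.symm

end Pool.Agent.Results.MP_0b62d6_lc.WeakExtDistrib
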